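import Pool.Agent.X20.Tr.RelFun
import Pool.Agent.X20.Tr.Fund

/-!
# The parity conjecture for the quadratic twists by `± ⌊α n ^ c⌋`

From Mathlib: `WeierstrassCurve.LSeries`: the Hasse–Weil `L`-series; `analyticOrderAt F 1`: the order of vanishing of `F`
at `1`; `W.toAffine.Point`: the group of the rational points; `Module.finrank ℤ`: the rank of an abelian group; `dimH E`: the Hausdorff dimension; `⌊x⌋₊`: the integer part; `𝓝`: neighbourhoods; `Finset.Icc`: the integers in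
a closed interval.
-/

set_option autoImplicit false

namespace Pool.Agent.Results.MP_577099_nt.AlongDilatedPowers

open Finset Filter Topology
open Pool.Agent.X20.Tr
open Pool.Agent.Y854.PS (ms xs)

/-- the twist `E ^ d : y ^ 2 = x ^ 3 + a d ^ 2 x + b d ^ 3` of `E : y ^ 2 = x ^ 3 + a x + b` -/
def twist (a b : ℚ) (d : ℤ) : WeierstrassCurve ℚ := ⟨0, 0, 0, a * (d : ℚ) ^ 2, b * (d : ℚ) ^ 3⟩

/-- the analytic rank of `W` is `r`: the entire continuation of the `L`-function vanishes at `1` to order `r` -/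
def AnalyticRank (W : WeierstrassCurve ℚ) (r : ℕ) : Prop :=
  ∃ F : ℂ → ℂ, Differentiable ℂ F ∧ (∀ s : ℂ, 3 / 2 < s.re → F s = W.LSeries s) ∧ analyticOrderAt F 1 = r

/-- the parity conjecture for `W`: the analytic rank and the rank have the same parity -/
def Parity (W : WeierstrassCurve ℚ) : Prop :=
  ∃ r : ℕ, AnalyticRank W r ∧ (Even (Module.finrank ℤ W.toAffine.Point) ↔ Even r)

open Classical in
/-- the proportion of the twists which satisfy the parity conjecture among the squarefree `d` (of both signs) with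
`|d| ≤ X` -/
noncomputable def parityRatio (a b : ℚ) (X : ℕ) : ℝ :=
  (((Icc (-(X : ℤ)) X).filter (fun d : ℤ => Squarefree d ∧ Parity (twist a b d))).card : ℝ) /
    ((Icc (-(X : ℤ)) X).filter (fun d : ℤ => Squarefree d)).card

open Classical in
/-- the proportion of the twists which satisfy the parity conjecture among the twists by `± ⌊α n ^ c⌋`, where `n ≤ N`
and `⌊α n ^ c⌋` is squarefree -/
noncomputable def sparseRatio (c α : ℝ) (a b : ℚ) (N : ℕ) : ℝ :=
  (((Icc 1 N ×ˢ {1, -1}).filter (fun p : ℕ × ℤ => Squarefree ⌊α * (p.1 : ℝ) ^ c⌋₊ ∧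
      Parity (twist a b (p.2 * ((⌊α * (p.1 : ℝ) ^ c⌋₊ : ℕ) : ℤ))))).card : ℝ) /
    ((Icc 1 N ×ˢ {1, -1}).filter (fun p : ℕ × ℤ => Squarefree ⌊α * (p.1 : ℝ) ^ c⌋₊)).card

lemma sf_lower : ∃ β : ℝ, 0 < β ∧ ∃ X₀ : ℕ, ∀ X : ℕ, X₀ ≤ X → β * X ≤ (cnt {m | Squarefree m} X : ℝ) := by
  classical
  refine ⟨1 / 12, by norm_num, 6, fun X hX => ?_⟩
  have h1 := card_sqf X hX
  have h2 : ((Icc 1 X).filter (fun m => m % 4 = 3 ∧ Squarefree m)).card ≤ cnt {m | Squarefree m} X := by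
    unfold cnt
    apply card_le_card
    intro m hm
    rw [mem_filter] at hm
    exact mem_filt.2 ⟨hm.1, hm.2.2⟩
  have h3 : (((Icc 1 X).filter (fun m => m % 4 = 3 ∧ Squarefree m)).card : ℝ) ≤ cnt {m | Squarefree m} X := by
    exact_mod_cast h2
  linarith

/-- the squarefree `m` for which the twist by `s m` satisfies the parity conjecture -/
def B (a b : ℚ) (s : ℤ) : Set ℕ := {m | Squarefree m ∧ Parity (twist a b (s * (m : ℤ)))}

/-- the mean of the two signs -/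
noncomputable def f (a b : ℚ) (m : ℕ) : ℝ := (ind (B a b 1) m + ind (B a b (-1)) m) / 2

open Classical in
/-- counting the pairs (number, sign) -/
lemma pairs (P : ℕ → ℤ → Prop) (N : ℕ) (hd : DecidablePred fun p : ℕ × ℤ => P p.1 p.2) :
    ((((Icc 1 N ×ˢ {1, -1}).filter (fun p : ℕ × ℤ => P p.1 p.2)).card : ℕ) : ℝ) =
      ∑ n ∈ Icc 1 N, ((if P n 1 then (1 : ℝ) else 0) + if P n (-1) then 1 else 0) := by
  rw [card_filter, sum_product]
  push_cast
  apply sum_congr rfl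
  intro n _
  rw [sum_pair (by norm_num)]

open Classical in
/-- counting the integers by absolute value -/
lemma signs (P : ℤ → Prop) (X : ℕ) (h0 : ¬ P 0) (hd : DecidablePred P) :
    ((((Icc (-(X : ℤ)) X).filter P).card : ℕ) : ℝ) =
      ∑ m ∈ Ioc 0 X, ((if P (m : ℤ) then (1 : ℝ) else 0) + if P (-(m : ℤ)) then 1 else 0) := by
  have e : (Icc (-(X : ℤ)) X).filter P =
      (((Icc 1 X).filter (fun m : ℕ => P (m : ℤ))).image (fun m : ℕ => (m : ℤ))) ∪
      (((Icc 1 X).filter (fun m : ℕ => P (-(m : ℤ)))).image (fun m : ℕ => -(m : ℤ))) := by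
    ext d
    simp only [mem_filter, mem_Icc, mem_union, mem_image]
    constructor
    · rintro ⟨⟨h1, h2⟩, h3⟩
      rcases lt_trichotomy d 0 with h | h | h
      · right
        exact ⟨d.natAbs, ⟨⟨by omega, by omega⟩, by rwa [show -((d.natAbs : ℕ) : ℤ) = d by omega]⟩, by omega⟩
      · exact absurd (h ▸ h3) h0
      · left
        exact ⟨d.natAbs, ⟨⟨by omega, by omega⟩, by rwa [show ((d.natAbs : ℕ) : ℤ) = d by omega]⟩, by omega⟩
    · rintro (⟨m, ⟨⟨h1, h2⟩, h3⟩, rfl⟩ | ⟨m, ⟨⟨h1, h2⟩, h3⟩, rfl⟩)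
      · exact ⟨⟨by omega, by omega⟩, h3⟩
      · exact ⟨⟨by omega, by omega⟩, h3⟩
  rw [e, card_union_of_disjoint, card_image_of_injective, card_image_of_injective, card_filter, card_filter,
    sum_add_distrib]
  · push_cast
    rfl
  · intro x y h
    have h' : -(x : ℤ) = -(y : ℤ) := h
    omega
  · intro x y h
    have h' : (x : ℤ) = (y : ℤ) := h
    omega
  · rw [disjoint_left]
    intro d h1 h2
    simp only [mem_filter, mem_Icc, mem_image] at h1 h2
    obtain ⟨m, ⟨⟨h1, _⟩, _⟩, rfl⟩ := h1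
    obtain ⟨m', ⟨⟨h3, _⟩, _⟩, h4⟩ := h2
    omega

lemma sqf_neg (m : ℕ) : Squarefree (-(m : ℤ)) ↔ Squarefree m := by
  rw [← Int.squarefree_natAbs, Int.natAbs_neg, Int.natAbs_natCast]

lemma sqf_pos (m : ℕ) : Squarefree ((m : ℤ)) ↔ Squarefree m := by
  rw [← Int.squarefree_natAbs, Int.natAbs_natCast]

lemma cnt_sum (X : ℕ) (Q : Set ℕ) : (cnt Q X : ℝ) = ∑ m ∈ Ioc 0 X, ind Q m := by
  classical
  rw [sum_ind Q (Ioc 0 X) (fun m => m)]
  have : Ioc 0 X = Icc 1 X := by ext m; simp only [mem_Ioc, mem_Icc]; omega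
  rw [this]
  unfold cnt
  rfl

lemma hit_sum (c α : ℝ) (N : ℕ) (Q : Set ℕ) : (hit c α Q N : ℝ) = ∑ n ∈ Icc 1 N, ind Q (ms α c n) := by
  classical
  rw [sum_ind Q]
  unfold hit
  rfl

lemma ratio1 (a b : ℚ) (X : ℕ) : parityRatio a b X =
    (∑ m ∈ Ioc 0 X, f a b m) / cnt {m | Squarefree m} X := by
  classical
  unfold parityRatio
  rw [signs _ X (by simp) _, signs _ X (by simp) _, cnt_sum]
  have e1 : ∑ m ∈ Ioc 0 X, ((if Squarefree ((m : ℤ)) ∧ Parity (twist a b (m : ℤ)) then (1 : ℝ) else 0) +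
      if Squarefree (-(m : ℤ)) ∧ Parity (twist a b (-(m : ℤ))) then 1 else 0) =
      2 * ∑ m ∈ Ioc 0 X, f a b m := by
    rw [mul_sum]
    apply sum_congr rfl
    intro m _
    unfold f ind B
    simp only [sqf_neg, sqf_pos, Set.mem_setOf_eq, one_mul, neg_one_mul]
    ring
  have e2 : ∑ m ∈ Ioc 0 X, ((if Squarefree ((m : ℤ)) then (1 : ℝ) else 0) + if Squarefree (-(m : ℤ)) then 1 else 0) =
      2 * ∑ m ∈ Ioc 0 X, ind {m | Squarefree m} m := by
    rw [mul_sum]
    apply sum_congr rfl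
    intro m _
    unfold ind
    simp only [sqf_neg, sqf_pos, Set.mem_setOf_eq]
    ring
  rw [e1, e2, mul_div_mul_left _ _ (by norm_num)]

lemma ratio2 (c α : ℝ) (a b : ℚ) (N : ℕ) : sparseRatio c α a b N =
    (∑ n ∈ Icc 1 N, f a b (ms α c n)) / hit c α {m | Squarefree m} N := by
  classical
  unfold sparseRatio
  rw [pairs (fun n s => Squarefree ⌊α * (n : ℝ) ^ c⌋₊ ∧
      Parity (twist a b (s * ((⌊α * (n : ℝ) ^ c⌋₊ : ℕ) : ℤ)))  ) N _,
    pairs (fun n _ => Squarefree ⌊α * (n : ℝ) ^ c⌋₊  ) N _, hit_sum]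
  have e1 : ∑ n ∈ Icc 1 N, ((if Squarefree ⌊α * (n : ℝ) ^ c⌋₊ ∧
      Parity (twist a b (1 * ((⌊α * (n : ℝ) ^ c⌋₊ : ℕ) : ℤ))) then (1 : ℝ) else 0) +
      if Squarefree ⌊α * (n : ℝ) ^ c⌋₊ ∧
        Parity (twist a b (-1 * ((⌊α * (n : ℝ) ^ c⌋₊ : ℕ) : ℤ))) then 1 else 0) =
      2 * ∑ n ∈ Icc 1 N, f a b (ms α c n) := by
    rw [mul_sum]
    apply sum_congr rfl
    intro n _
    unfold f ind B
    simp only [Set.mem_setOf_eq]
    show _ = 2 * (((if Squarefree ⌊α * (n : ℝ) ^ c⌋₊ ∧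
      Parity (twist a b (1 * ((⌊α * (n : ℝ) ^ c⌋₊ : ℕ) : ℤ))) then (1 : ℝ) else 0) +
      if Squarefree ⌊α * (n : ℝ) ^ c⌋₊ ∧
        Parity (twist a b (-1 * ((⌊α * (n : ℝ) ^ c⌋₊ : ℕ) : ℤ))) then 1 else 0) / 2)
    ring
  have e2 : ∑ n ∈ Icc 1 N, ((if Squarefree ⌊α * (n : ℝ) ^ c⌋₊ then (1 : ℝ) else 0) +
      if Squarefree ⌊α * (n : ℝ) ^ c⌋₊ then 1 else 0) =
      2 * ∑ n ∈ Icc 1 N, ind {m | Squarefree m} (ms α c n) := by
    rw [mul_sum]
    apply sum_congr rfl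
    intro n _
    unfold ind
    simp only [Set.mem_setOf_eq]
    show _ = 2 * (if Squarefree ⌊α * (n : ℝ) ^ c⌋₊ then (1 : ℝ) else 0)
    ring
  have k1 := congrArg₂ (fun x y : ℝ => x / y) e1 e2
  rw [mul_div_mul_left _ _ (by norm_num : (2 : ℝ) ≠ 0)] at k1
  rw [← k1]
  congr 1
  · apply sum_congr rfl
    intro n _
    congr 1 <;> congr 1
  · apply sum_congr rfl
    intro n _
    congr 1 <;> congr 1

/-- For every real `c > 1` there are `κ > 0` and a set `Z` of real numbers of Hausdorff dimension at most `1 - κ` such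
that for every real `α > 0` outside `Z`:

* for EVERY curve `E : y ^ 2 = x ^ 3 + a x + b` over `ℚ` and every real `ρ`: the proportion of the twists of `E` which
  satisfy the parity conjecture among the twists by the squarefree `d`, `|d| ≤ X`, tends to `ρ` if and only if the
  proportion among the twists by the squarefree `± ⌊α n ^ c⌋`, `n ≤ N`, tends to `ρ`;
* hence the parity conjecture holds for `100` per cent of the quadratic twists of every elliptic curve if and only if it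
  holds for `100` per cent of the twists in the sparse families. -/
theorem result (c : ℝ) (hc : 1 < c) : ∃ κ : ℝ, 0 < κ ∧ κ < 1 ∧ ∃ Z : Set ℝ, dimH Z ≤ ENNReal.ofReal (1 - κ) ∧
    ∀ α : ℝ, 0 < α → α ∉ Z →
      (∀ (a b : ℚ) (ρ : ℝ), Tendsto (parityRatio a b) atTop (𝓝 ρ) ↔ Tendsto (sparseRatio c α a b) atTop (𝓝 ρ)) ∧
      ((∀ a b : ℚ, 4 * a ^ 3 + 27 * b ^ 2 ≠ 0 → Tendsto (parityRatio a b) atTop (𝓝 1)) ↔
        ∀ a b : ℚ, 4 * a ^ 3 + 27 * b ^ 2 ≠ 0 → Tendsto (sparseRatio c α a b) atTop (𝓝 1)) := by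
  obtain ⟨κ, hκ0, hκ1, H⟩ := use c hc
  obtain ⟨Z, hZ, h⟩ := H (fun _ _ => {m | Squarefree m}) ((ℚ × ℚ) × ℤ) (fun i => B i.1.1 i.1.2 i.2)
  refine ⟨κ, hκ0, hκ1, Z, hZ, fun α hα hαZ => ?_⟩
  obtain ⟨_, h2, h3⟩ := h α hα hαZ
  have key : ∀ (a b : ℚ) (ρ : ℝ), Tendsto (parityRatio a b) atTop (𝓝 ρ) ↔
      Tendsto (sparseRatio c α a b) atTop (𝓝 ρ) := by
    intro a b ρ
    have hC : Cmp c α κ (f a b) := Cmp.half (h3 ((a, b), 1)) (h3 ((a, b), -1))
    have hi : ∀ s : ℤ, ∀ m, 0 ≤ ind (B a b s) m ∧ ind (B a b s) m ≤ ind {m | Squarefree m} m := by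
      intro s m
      unfold ind
      split_ifs with k1 k2
      · exact ⟨by norm_num, le_refl _⟩
      · exact absurd k1.1 k2
      · exact ⟨by norm_num, by norm_num⟩
      · exact ⟨by norm_num, le_refl _⟩
    have h4 := fun_dens_iff hc hα hκ0 hκ1 (f := f a b) (Q := {m | Squarefree m})
      (fun m => by
        unfold f
        linarith [(hi 1 m).1, (hi (-1) m).1])
      (fun m => by
        unfold f
        linarith [(hi 1 m).2, (hi (-1) m).2]) hC (h2 0 0) sf_lower ρ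
    have e1 : parityRatio a b = fun X => (∑ m ∈ Ioc 0 X, f a b m) / cnt {m | Squarefree m} X :=
      funext fun X => ratio1 a b X
    have e2 : sparseRatio c α a b =
        fun N => (∑ n ∈ Icc 1 N, f a b (ms α c n)) / hit c α {m | Squarefree m} N :=
      funext fun N => ratio2 c α a b N
    rw [e1, e2]
    exact h4
  exact ⟨key, fun hG a b hab => (key a b _).1 (hG a b hab), fun hG a b hab => (key a b _).2 (hG a b hab)⟩

end Pool.Agent.Results.MP_577099_nt.AlongDilatedPowers
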