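import Pool.Agent.Results.MP_92892c_nt.SimultaneousSumsOfTwoSquares
import Pool.Agent.Results.MP_9c97e9_nt.FormulaModTwo

/-!
# The parity conjecture for exact proportions of thin families of quadratic twists

Two families of quadratic twists:
* `E_D`, the twist by `D` of `X_0(49)` (complex multiplication by `ℤ[(1 + √-7)/2]`), `D` any odd squarefree sum of two
  squares;
* `F_D`, the twist by `D` of `X_0(14)` (no complex multiplication), `D` in the class `Adm` of positive and negative squarefree
  integers.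

For a curve of the families with finitely many rational points and `Ш[2] = 0` the parity conjecture holds: the rank is `0`, and
`1 = (-1) ^ rank` is the only number `w` which can occur in a functional equation `Λ(2 - s) = w Λ(s)` of the completed
L-function. This is so for exactly the proportion `c = ∏ (1 - 2 ^ (-(2 i + 1))) = 0.4194...` of the first family (with
independence for any finite set of simultaneous further twists), and of the positive and of the negative `D` in the second one.

The proof combines the criteria and the proportions of the earlier results `MP_92892c_nt.SimultaneousSumsOfTwoSquares` and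
`MP_9c97e9_nt.FormulaModTwo` (nonvanishing of `L(1)` from the 2-adic valuation of its algebraic part).
-/

set_option autoImplicit false

open Filter Topology

namespace Pool.Agent.Results.MP_577099_nt.ExactProportions

open Pool.Agent.Results.MP_92892c_nt

/-- the completed L-function `Λ(s) = N ^ (s/2) (2 π) ^ (-s) Γ(s) L(s)` (centre `s = 1`; the problem has its centre at `1/2`) -/
noncomputable def completed (N : ℝ) (L : ℂ → ℂ) (s : ℂ) : ℂ :=
  (N : ℂ) ^ (s / 2) * (2 * Real.pi : ℂ) ^ (-s) * Complex.Gamma s * L s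

/-- `w` occurs as the sign of a functional equation: there are `N > 0` and an entire function `L` which is an analytic
continuation of the L-function (the property `IsL`) with `Λ(2 - s) = w Λ(s)` for `0 < Re s < 2` -/
def IsRootNumber (IsL : (ℂ → ℂ) → Prop) (w : ℂ) : Prop :=
  ∃ (N : ℝ) (L : ℂ → ℂ), 0 < N ∧ IsL L ∧
    ∀ s : ℂ, 0 < s.re → s.re < 2 → completed N L (2 - s) = w * completed N L s

/-- The parity conjecture holds for the curve `W` over `ℚ` with rank zero: there are finitely many rational points, the rank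
is `0`, there is an entire L-function, it does not vanish at `1`, and every root number is `(-1) ^ rank`, namely `1`. -/
def ParityRankZero (W : WeierstrassCurve ℚ) (IsL : (ℂ → ℂ) → Prop) : Prop :=
  Finite W.toAffine.Point ∧ Module.finrank ℤ W.toAffine.Point = 0 ∧ (∃ L, IsL L ∧ L 1 ≠ 0) ∧
    ∀ w : ℂ, IsRootNumber IsL w → w = (-1) ^ Module.finrank ℤ W.toAffine.Point ∧ w = 1

theorem eq_of_half {F G : ℂ → ℂ} (hF : Differentiable ℂ F) (hG : Differentiable ℂ G)
    (h : ∀ s : ℂ, 2 < s.re → F s = G s) : F = G := by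
  have hF' : AnalyticOnNhd ℂ F Set.univ := Complex.analyticOnNhd_univ_iff_differentiable.2 hF
  have hG' : AnalyticOnNhd ℂ G Set.univ := Complex.analyticOnNhd_univ_iff_differentiable.2 hG
  have h3 : F =ᶠ[𝓝 (3 : ℂ)] G := by
    filter_upwards [(isOpen_lt continuous_const Complex.continuous_re).mem_nhds
      (show (2 : ℝ) < (3 : ℂ).re by norm_num)] with s hs
    exact h s hs
  exact hF'.eq_of_eventuallyEq hG' h3

theorem completed_one {N : ℝ} (hN : 0 < N) {L : ℂ → ℂ} (h : L 1 ≠ 0) : completed N L 1 ≠ 0 := by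
  unfold completed
  rw [Complex.Gamma_one, mul_one]
  refine mul_ne_zero (mul_ne_zero ?_ ?_) h
  · rw [Ne, Complex.cpow_eq_zero_iff]
    exact fun h => hN.ne' (by exact_mod_cast h.1)
  · rw [Ne, Complex.cpow_eq_zero_iff]
    intro h
    have h1 : (Real.pi : ℂ) ≠ 0 := by exact_mod_cast Real.pi_ne_zero
    exact (mul_ne_zero two_ne_zero h1) h.1

theorem sign_one {IsL : (ℂ → ℂ) → Prop} (huniq : ∀ L L' : ℂ → ℂ, IsL L → IsL L' → L = L') {L₀ : ℂ → ℂ} (h₀ : IsL L₀)
    (h1 : L₀ 1 ≠ 0) {w : ℂ} (hw : IsRootNumber IsL w) : w = 1 := by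
  obtain ⟨N, L, hN, hL, h⟩ := hw
  have e := huniq L L₀ hL h₀
  subst e
  have h2 := h 1 (by norm_num) (by norm_num)
  rw [show (2 : ℂ) - 1 = 1 by norm_num] at h2
  have h3 := completed_one hN h1
  have h4 : (w - 1) * completed N L 1 = 0 := by
    rw [sub_mul, ← h2, one_mul, sub_self]
  rcases mul_eq_zero.1 h4 with h5 | h5
  · exact sub_eq_zero.1 h5
  · exact absurd h5 h3

theorem parity_of {W : WeierstrassCurve ℚ} {IsL : (ℂ → ℂ) → Prop}
    (huniq : ∀ L L' : ℂ → ℂ, IsL L → IsL L' → L = L') (hfin : Finite W.toAffine.Point) {L₀ : ℂ → ℂ} (h₀ : IsL L₀)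
    (h1 : L₀ 1 ≠ 0) : ParityRankZero W IsL := by
  have hr : Module.finrank ℤ W.toAffine.Point = 0 := Pool.Agent.Y687.finrank_zero_of_finite hfin
  refine ⟨hfin, hr, ⟨L₀, h₀, h1⟩, fun w hw => ?_⟩
  have h2 := sign_one huniq h₀ h1 hw
  rw [hr, pow_zero]
  exact ⟨h2, h2⟩

theorem count_congr {Q Q' : ℕ → Prop} {X : ℕ} (h : ∀ D, SimultaneousSumsOfTwoSquares.Family D → (Q D ↔ Q' D)) :
    SimultaneousSumsOfTwoSquares.count Q X = SimultaneousSumsOfTwoSquares.count Q' X := by
  classical
  unfold SimultaneousSumsOfTwoSquares.count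
  refine congrArg Finset.card (Finset.ext fun D => ?_)
  rw [Finset.mem_filter, Finset.mem_filter]
  exact and_congr_right fun _ => and_congr_right fun hD => h D hD

/-- **The parity conjecture for exact proportions of two thin families of quadratic twists.**
(1) For the twist `E_D` of `X_0(49)` by an odd squarefree sum of two squares `D` with `E_D(ℚ)` finite and `Ш(E_D)[2] = 0`
the parity conjecture holds, with rank `0` and root number `1`; the family is closed under twisting, `star m D` is the
squarefree part of `m D`.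
(2) For all finite disjoint subsets `G`, `K` of the family the proportion of the `D` of the family such that the curves
`E_{star m D}` have the property for all `m ∈ G` and do not have it for all `m ∈ K` tends to `c ^ #G (1 - c) ^ #K`.
(3) For the twist by `D ≠ 1` in `Adm` of `X_0(14)` with finitely many rational points and `Ш[2] = 0` the parity
conjecture holds, with rank `0` and root number `1`. (4) The proportion of these `D` among the positive and among the negative
`D` in `Adm` tends to `c`. -/
theorem result :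
    -- (1)
    (∀ D : ℕ, SimultaneousSumsOfTwoSquares.Family D → SimultaneousSumsOfTwoSquares.FiniteShaTwo D →
      ParityRankZero (SimultaneousSumsOfTwoSquares.base (SimultaneousSumsOfTwoSquares.twist D))
        (SimultaneousSumsOfTwoSquares.IsLFunction D)) ∧
    (∀ m D : ℕ, SimultaneousSumsOfTwoSquares.Family m → SimultaneousSumsOfTwoSquares.Family D →
      SimultaneousSumsOfTwoSquares.Family (SimultaneousSumsOfTwoSquares.star m D) ∧
      ∃ k : ℕ, k ≠ 0 ∧ m * D = SimultaneousSumsOfTwoSquares.star m D * k ^ 2) ∧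
    -- (3)
    (∀ D : ℤ, MP_9c97e9_nt.FormulaModTwo.Adm D → D ≠ 1 →
      MP_9c97e9_nt.FormulaModTwo.OddSha (MP_9c97e9_nt.FormulaModTwo.twist D) →
      ParityRankZero (MP_9c97e9_nt.FormulaModTwo.overQ (MP_9c97e9_nt.FormulaModTwo.twist D))
        (MP_9c97e9_nt.FormulaModTwo.IsLFunction (MP_9c97e9_nt.FormulaModTwo.twist D))) ∧
    ∃ c : ℝ, 0.4194 < c ∧ c < 0.4195 ∧ c = ∏' i : ℕ, (1 - (1 / 2 : ℝ) ^ (2 * i + 1)) ∧
      -- (2)
      (∀ G K : Finset ℕ, (∀ m ∈ G, SimultaneousSumsOfTwoSquares.Family m) →
        (∀ m ∈ K, SimultaneousSumsOfTwoSquares.Family m) → Disjoint G K →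
        Tendsto (fun X : ℕ => (SimultaneousSumsOfTwoSquares.count (fun D =>
            (∀ m ∈ G, SimultaneousSumsOfTwoSquares.FiniteShaTwo (SimultaneousSumsOfTwoSquares.star m D)) ∧
            ∀ m ∈ K, ¬ SimultaneousSumsOfTwoSquares.FiniteShaTwo (SimultaneousSumsOfTwoSquares.star m D)) X : ℝ) /
            (SimultaneousSumsOfTwoSquares.count (fun _ => True) X : ℝ))
          atTop (𝓝 (c ^ G.card * (1 - c) ^ K.card))) ∧
      -- (4)
      Tendsto (fun X : ℕ => (MP_9c97e9_nt.FormulaModTwo.good (fun D =>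
          MP_9c97e9_nt.FormulaModTwo.OddSha (MP_9c97e9_nt.FormulaModTwo.twist D)) 1 X : ℝ) /
          (MP_9c97e9_nt.FormulaModTwo.total 1 X : ℝ)) atTop (𝓝 c) ∧
      Tendsto (fun X : ℕ => (MP_9c97e9_nt.FormulaModTwo.good (fun D =>
          MP_9c97e9_nt.FormulaModTwo.OddSha (MP_9c97e9_nt.FormulaModTwo.twist D)) (-X) (-1) : ℝ) /
          (MP_9c97e9_nt.FormulaModTwo.total (-X) (-1) : ℝ)) atTop (𝓝 c) := by
  obtain ⟨-, r2, c, hc1, hc2, hc, hG⟩ := SimultaneousSumsOfTwoSquares.result
  obtain ⟨f1, -, f3, f4⟩ := MP_9c97e9_nt.FormulaModTwo.result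
  have hcc : MP_9c97e9_nt.FormulaModTwo.cc = c := hc.symm
  rw [hcc] at f3 f4
  refine ⟨fun D hD hF => ?_, r2, fun D hD h1 hO => ?_, c, hc1, hc2, hc, ?_, f3, f4⟩
  · have hFam := (Pool.Agent.X99.C49.fam_two D).1 hD
    obtain ⟨hfin, -, L, hL, hL1, -⟩ := (SimultaneousSumsOfTwoSquares.dich hFam).1.2 hF
    refine parity_of (fun L L' hL hL' => eq_of_half hL.1 hL'.1 fun s hs => ?_) hfin hL hL1
    rw [hL.2 s hs, hL'.2 s hs]
  · have hA : Pool.Agent.Y687.MQ.AdmD D := hD
    obtain ⟨⟨L, hL⟩, y, hy, hv⟩ := Pool.Agent.Y682.YQ.val hA h1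
    have hZ : Pool.Agent.Y682.YQ.Zer D := by
      unfold MP_9c97e9_nt.FormulaModTwo.OddSha at hO
      unfold Pool.Agent.Y682.YQ.Zer
      refine ⟨hO.1, fun x hx => hO.2 x ?_⟩
      rw [two_nsmul]
      exact hx
    have hodd := hy.2 hZ
    have hy0 : y ≠ 0 := by
      rintro rfl
      exact absurd hodd (by decide)
    have hL' : MP_9c97e9_nt.FormulaModTwo.IsLFunction (MP_9c97e9_nt.FormulaModTwo.twist D) L := hL
    refine parity_of (fun L L' hL hL' => eq_of_half hL.1 hL'.1 fun s hs => ?_) hO.1 hL' ((hv L hL).1 hy0)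
    exact (hL.2 s (by linarith)).unique (hL'.2 s (by linarith))
  · intro G K hG' hK' hd
    have h := hG G K hG' hK' hd
    refine h.congr fun X => ?_
    rw [count_congr fun D hD => ?_]
    have hD' := (Pool.Agent.X99.C49.fam_two D).1 hD
    refine and_congr (forall_congr' fun m => forall_congr' fun hm => ?_)
      (forall_congr' fun m => forall_congr' fun hm => ?_)
    · have hm' := (Pool.Agent.X99.C49.fam_two m).1 (hG' m hm)
      exact (SimultaneousSumsOfTwoSquares.dich (Pool.Agent.X99.C49.fam_star hm' hD')).1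
    · have hm' := (Pool.Agent.X99.C49.fam_two m).1 (hK' m hm)
      exact (SimultaneousSumsOfTwoSquares.dich (Pool.Agent.X99.C49.fam_star hm' hD')).2

end Pool.Agent.Results.MP_577099_nt.ExactProportions
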