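import Mathlib
import Pool.Agent.X298.FP.CMain

/-!
# The parity conjecture for elliptic curves over `ℚ` at any point of the critical line

Let `E / ℚ` be an elliptic curve, `L(E, s)` its `L`-series (Mathlib), `Λ(s) = N^{s/2} (2π)^{-s} Γ(s) L(E, s)` the completed
function with `Λ(2 - s) = w Λ(s)`, `Λ` entire (the theorem of Wiles, Taylor, Breuil, Conrad, Diamond). For real `τ`, `γ > π / 2` and
`T > 0` consider the absolutely convergent sum over the primes and exponents

  `S_τ(T) = ∑_p ∑_{k ≥ 1} (α_p^k + β_p^k) e^{i (γ / T - τ) k log p} / (k p^k Γ(1 + k log p / T))`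

and `Z_τ(T) = N^{(1 + iτ)/2} (2π)^{-(1 + iτ)} Γ(1 + iτ) exp S_τ(T)`. Then, without any hypothesis on zeros:

* `Z_τ(T)` converges for `T → ∞`, for every `τ`, with the rate `O(1/T)`, to `ℓ(τ) = Λ(1 + iτ)`;
* `ℓ(τ)` is real for all `τ` if `w = 1`, purely imaginary for all `τ` if `w = -1`, and it vanishes only for finitely many `τ` in
  every bounded interval;
* for **one** (equivalently every) `τ` with `ℓ(τ) ≠ 0`, **the parity conjecture `w = (-1)^{rk E(ℚ)}` holds if and only if
  `(-1)^{rk E(ℚ)} ℓ(τ)² > 0`**, i.e. if and only if the limit of `Z_τ(T)` lies on the real axis in the case of even rank, on the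
  imaginary axis in the case of odd rank.

So one convergent sum over primes at one arbitrary point of the critical line decides the parity conjecture for `E`; no order of
vanishing has to be determined.

Proof: the rotated law at a complex point (no singularity of `log L` on the ray to the right matters, because the contour
passes below the ray), `Λ(s̄) = conj Λ(s)` and the functional equation.
-/

set_option autoImplicit false

open Filter Topology

namespace Pool.Agent.Results.MP_577099_nt.SignOnTheCriticalLine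

open Pool.Agent.X298.PA.NF Pool.Agent.X298.FP

/-- **The parity conjecture at any point of the critical line.** -/
theorem result (E : WeierstrassCurve ℚ) {N : ℝ} {w : ℤ} {Λ : ℂ → ℂ} (h : Completed E N w Λ) {γ : ℝ}
    (hγ : Real.pi / 2 < γ) :
    (∀ τ T : ℝ, 0 < T → Summable fun x => ‖cTerm E τ γ T x‖) ∧
    (w = 1 ∨ w = -1) ∧
    ∃ ℓ : ℝ → ℂ,
      (∀ τ : ℝ, (fun T : ℝ => zFun E N τ γ T - ℓ τ) =O[atTop] fun T : ℝ => 1 / T) ∧
      (∀ R : ℝ, {τ : ℝ | |τ| ≤ R ∧ ℓ τ = 0}.Finite) ∧
      (w = 1 → ∀ τ : ℝ, (ℓ τ).im = 0) ∧ (w = -1 → ∀ τ : ℝ, (ℓ τ).re = 0) ∧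
      ∀ τ : ℝ, ℓ τ ≠ 0 →
        (w = (-1) ^ rank E ↔ ∃ x : ℝ, 0 < x ∧ (-1 : ℂ) ^ rank E * ℓ τ ^ 2 = x) := by
  have hw := sign_cases h
  have hre : ∀ z : ℂ, z ^ 2 = ((z.re ^ 2 - z.im ^ 2 : ℝ) : ℂ) + ((2 * z.re * z.im : ℝ) : ℂ) * Complex.I := by
    intro z
    nth_rewrite 1 [← Complex.re_add_im z]
    push_cast
    linear_combination (z.im : ℂ) ^ 2 * Complex.I_sq
  have hn : ∀ z : ℂ, ‖z‖ ^ 2 = z.re ^ 2 + z.im ^ 2 := by
    intro z
    rw [← Complex.normSq_eq_norm_sq, Complex.normSq_apply]
    ring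
  refine ⟨fun τ T hT => cTerm_summable E τ γ hT, hw, fun τ => Λ (1 + τ * Complex.I), fun τ => value h τ hγ,
    fun R => finite_zeros h.entire (exists_ne h) R, ?_, ?_, ?_⟩
  · intro hw1 τ
    have h1 := square h τ
    rw [hw1, Int.cast_one, one_mul, hre] at h1
    have h2 := congrArg Complex.re h1
    simp only [Complex.add_re, Complex.ofReal_re, Complex.re_ofReal_mul, Complex.I_re, mul_zero, add_zero] at h2
    rw [hn] at h2
    have h3 : (Λ (1 + τ * Complex.I)).im ^ 2 = 0 := by linarith
    exact pow_eq_zero_iff (two_ne_zero) |>.1 h3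
  · intro hw1 τ
    have h1 := square h τ
    rw [hw1, hre] at h1
    have h2 := congrArg Complex.re h1
    have e1 : (((-1 : ℤ) : ℂ) * ((‖Λ (1 + τ * Complex.I)‖ ^ 2 : ℝ) : ℂ)).re = -‖Λ (1 + τ * Complex.I)‖ ^ 2 := by
      push_cast
      simp [← Complex.ofReal_pow]
    rw [e1] at h2
    simp only [Complex.add_re, Complex.ofReal_re, Complex.re_ofReal_mul, Complex.I_re, mul_zero, add_zero] at h2
    rw [hn] at h2
    have h3 : (Λ (1 + τ * Complex.I)).re ^ 2 = 0 := by linarith
    exact pow_eq_zero_iff (two_ne_zero) |>.1 h3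
  · intro τ hτ
    have h1 := square h τ
    have hpos : 0 < ‖Λ (1 + τ * Complex.I)‖ ^ 2 := pow_pos (norm_pos_iff.2 hτ) 2
    constructor
    · intro hw1
      refine ⟨‖Λ (1 + τ * Complex.I)‖ ^ 2, hpos, ?_⟩
      simp only
      rw [h1, hw1]
      push_cast
      rw [← mul_assoc, ← mul_pow]
      norm_num
    · rintro ⟨x, hx, hxe⟩
      simp only at hxe
      rw [h1] at hxe
      have hxr : (((-1 : ℝ) ^ rank E * w) * ‖Λ (1 + τ * Complex.I)‖ ^ 2 : ℝ) = x := by
        have : (((((-1 : ℝ) ^ rank E * w) * ‖Λ (1 + τ * Complex.I)‖ ^ 2 : ℝ)) : ℂ) = (x : ℂ) := by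
          rw [← hxe]
          push_cast
          ring
        exact_mod_cast this
      have hpos2 : 0 < (-1 : ℝ) ^ rank E * w := by
        by_contra hneg
        push Not at hneg
        nlinarith
      rcases neg_one_pow_eq_or ℤ (rank E) with h2 | h2 <;> rcases hw with h3 | h3
      · rw [h2, h3]
      · exfalso
        have h4 : ((-1 : ℝ)) ^ rank E = 1 := by exact_mod_cast h2
        rw [h4, h3] at hpos2
        norm_num at hpos2
      · exfalso
        have h4 : ((-1 : ℝ)) ^ rank E = -1 := by exact_mod_cast h2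
        rw [h4, h3] at hpos2
        norm_num at hpos2
      · rw [h2, h3]

end Pool.Agent.Results.MP_577099_nt.SignOnTheCriticalLine
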