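import Mathlib
import Pool.Agent.Y667.QKR.Main
import Pool.Agent.Y667.SX.Main
import Pool.Agent.W672.FK.Lowf
import Pool.Agent.W307.RT.Tors
import Pool.Agent.X293.CO.Cond

/-!
# The parity conjecture for `2 ^ m` quadratic twists at once, in the ordering by the conductor

All elliptic curves `E` over `ℚ` with full rational 2-torsion, ordered by the conductor, without any
bound on the height or on the discriminant. For all `m` and `N` there is a finite list of tuples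
`(d_1, ..., d_m)`, `d_i = q_i q'_i` with `2 m` distinct primes `q_i, q'_i > N`, and `δ > 0` such that
for all large `Z` for some tuple of the list at least a proportion `δ` of the curves of conductor at
most `Z` satisfies: all the `2 ^ m` quadratic twists `E_D` of `E` by the products `D` of the `d_i`
have rank `0`, trivial `Ш[2]` and root number `1`.
-/

set_option autoImplicit false

namespace Pool.Agent.Results.MP_577099_nt.TwistsByConductor

open Finset Filter Topology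

open Pool.Agent.TH841.SH.D (Sha)

open Pool.Agent.Y667.SX (Sel2H)

/-- the curve `y² = x³ + A x + B` over `ℚ` -/
def E (A B : ℤ) : WeierstrassCurve ℚ := ⟨0, 0, 0, (A : ℚ), (B : ℚ)⟩

/-- The prime-to-6 part of the conductor of `y² = x³ + A x + B` (there is no prime `p` with `p⁴ ∣ A`
and `p⁶ ∣ B`): the product over the primes `p ≥ 5` dividing `4 A³ + 27 B²` of `p` (multiplicative
reduction: `p ∤ A`) or `p²` (additive reduction: `p ∣ A`) -/
def Cond6 (c : ℤ × ℤ) : ℕ :=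
  ∏ p ∈ (Int.natAbs (4 * c.1 ^ 3 + 27 * c.2 ^ 2)).primeFactors.filter (fun p => 5 ≤ p),
    if (p : ℤ) ∣ c.1 then p ^ 2 else p

/-- the admissible factors: functions with values between `1` and `2 ^ 8 * 3 ^ 5`, for instance the
part of the conductor composed of the primes 2 and 3, or `f = 1` -/
def Factor (f : ℤ × ℤ → ℕ) : Prop := ∀ c, 1 ≤ f c ∧ f c ≤ 2 ^ 8 * 3 ^ 5

/-- The pairs `(A, B)` of integers such that `4 A³ + 27 B² ≠ 0`, there is no prime `p` with
`p⁴ ∣ A` and `p⁶ ∣ B`, `Z/2 x Z/2` embeds in the group of the rational points of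
`y² = x³ + A x + B`, and `f * Cond6 ≤ Z` (for a suitable factor `f`: the conductor is at most `Z`).
Every elliptic curve over `ℚ` with full rational 2-torsion is isomorphic to `E A B` for exactly one
pair with the first three properties. -/
def Fam (f : ℤ × ℤ → ℕ) (Z : ℕ) : Set (ℤ × ℤ) :=
  {c : ℤ × ℤ | 4 * c.1 ^ 3 + 27 * c.2 ^ 2 ≠ 0 ∧
    (∀ p : ℕ, p.Prime → ¬ ((p : ℤ) ^ 4 ∣ c.1 ∧ (p : ℤ) ^ 6 ∣ c.2)) ∧
    (∃ g : ZMod 2 × ZMod 2 →+ (E c.1 c.2).toAffine.Point, Function.Injective g) ∧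
    f c * Cond6 c ≤ Z}

/-- the proportion of the curves of `S` among the curves of size at most `Z` -/
noncomputable def proportion (f : ℤ × ℤ → ℕ) (S : Set (ℤ × ℤ)) (Z : ℕ) : ℝ :=
  ((Fam f Z ∩ S).ncard : ℝ) / (Fam f Z).ncard

/-- the property without the size -/
def Pr (c : ℤ × ℤ) : Prop := 4 * c.1 ^ 3 + 27 * c.2 ^ 2 ≠ 0 ∧
    (∀ p : ℕ, p.Prime → ¬ ((p : ℤ) ^ 4 ∣ c.1 ∧ (p : ℤ) ^ 6 ∣ c.2)) ∧
    (∃ g : ZMod 2 × ZMod 2 →+ (E c.1 c.2).toAffine.Point, Function.Injective g)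

lemma good : Pool.Agent.Y679.Cr.Good Pr := by
  classical
  refine ⟨fun c hc => ⟨?_, ?_⟩, fun H c hc => ?_, Pool.Agent.W672.FK.lowf⟩
  · exact Pool.Agent.Y679.Cr.isMin_of hc.1 hc.2.1
  · exact Pool.Agent.Y679.Cr.full_of (Pool.Agent.W307.RT.tors_iff.2 hc.2.2)
  · unfold Pool.Agent.W307.RT.Cv at hc
    obtain ⟨-, h1, -, -, h2, h3⟩ := mem_filter.1 hc
    exact ⟨h1, h2, Pool.Agent.W307.RT.tors_iff.1 h3⟩

lemma cond_eq (c : ℤ × ℤ) : Pool.Agent.Y679.Cr.cs c = Cond6 c := by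
  unfold Pool.Agent.Y679.Cr.cs Pool.Agent.H925R.Szpiro.condS Cond6
  rw [Pool.Agent.Y679.Cr.D_neg, Int.natAbs_neg]
  refine prod_congr rfl fun p _ => ?_
  by_cases h : (p : ℤ) ∣ c.1
  · rw [if_pos h, if_pos (Int.dvd_neg.2 h)]
  · rw [if_neg h, if_neg fun h' => h (Int.dvd_neg.1 h')]

lemma bdd {f : ℤ × ℤ → ℕ} (hf : Factor f) : Pool.Agent.Y679.Cr.Bdd f :=
  fun c => ⟨(hf c).1, (hf c).2.trans (by norm_num)⟩

lemma Fam_eq (f : ℤ × ℤ → ℕ) (Z : ℕ) : Fam f Z = Pool.Agent.Y679.Cr.Gm Pr f Z := by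
  ext c
  unfold Fam Pool.Agent.Y679.Cr.Gm
  rw [Set.mem_ofPred_eq, Set.mem_ofPred_eq, cond_eq]
  exact ⟨fun h => ⟨⟨h.1, h.2.1, h.2.2.1⟩, h.2.2.2⟩, fun h => ⟨h.1.1, h.1.2.1, h.1.2.2, h.2⟩⟩

/-- the Mordell-Weil rank -/
noncomputable def rank (c : ℤ × ℤ) : ℕ := Module.finrank ℤ (E c.1 c.2).toAffine.Point

/-- `a_p = p + 1 - #V(𝔽_p)`, that is `p` minus the number of the affine solutions of the Weierstrass
equation modulo `p`; for a prime of multiplicative reduction this is `1` (split) or `-1`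
(non-split) -/
noncomputable def ap (V : WeierstrassCurve ℤ) (p : ℕ) : ℤ :=
  p - Nat.card {z : ZMod p × ZMod p // z.2 ^ 2 + V.a₁ * z.1 * z.2 + V.a₃ * z.2 =
    z.1 ^ 3 + V.a₂ * z.1 ^ 2 + V.a₄ * z.1 + V.a₆}

/-- the equation with integer coefficients is nonsingular over `ℚ` and at every prime the reduction
is good or multiplicative (then it is a minimal equation) -/
def Semistable (V : WeierstrassCurve ℤ) : Prop :=
  V.Δ ≠ 0 ∧ ∀ p : ℕ, p.Prime → (p : ℤ) ∣ V.Δ → ¬ (p : ℤ) ∣ V.c₄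

/-- the conductor of a semistable curve -/
def conductor (V : WeierstrassCurve ℤ) : ℕ := ∏ p ∈ V.Δ.natAbs.primeFactors, p

/-- The root number of a semistable curve: the product of the local root numbers `-1` at infinity
and `-a_p` at the primes of bad (multiplicative) reduction. -/
noncomputable def wSemi (V : WeierstrassCurve ℤ) : ℤ :=
  -∏ p ∈ V.Δ.natAbs.primeFactors, (-ap V p)

/-- the quadratic twist by `d` of the curve `V` (the curve `y² = x³ + b₂ x² + 8 b₄ x + 16 b₆`) -/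
def twist (V : WeierstrassCurve ℤ) (d : ℕ) : WeierstrassCurve ℚ :=
  ⟨0, (d : ℚ) * V.b₂, 0, 8 * (d : ℚ) ^ 2 * V.b₄, 16 * (d : ℚ) ^ 3 * V.b₆⟩

/-- `w` is the root number of `W`, for the quadratic twists `W` of a semistable curve `V` of conductor
`N` by a positive fundamental discriminant `d ≡ 1` modulo `4` prime to `N` (`d = 1` allowed): it is
`χ_d(-N) w_V`, where `χ_d(-N) = χ_d(N)` is the Jacobi symbol `(N / d)` -/
def HasRootNumber (W : WeierstrassCurve ℚ) (w : ℤ) : Prop :=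
  ∃ (V : WeierstrassCurve ℤ) (d : ℕ), Semistable V ∧ Squarefree d ∧ d % 4 = 1 ∧
    d.Coprime V.Δ.natAbs ∧ (∃ C : WeierstrassCurve.VariableChange ℚ, C • W = twist V d) ∧
    w = jacobiSym (conductor V) d * wSemi V

/-- The tuples `(q_1 q'_1, ..., q_m q'_m)`, where the `q_i` and `q'_i` are `2 m` distinct primes, all
larger than `N`. -/
def Tuple {m : ℕ} (N : ℕ) (d : Fin m → ℕ) : Prop :=
  ∃ q q' : Fin m → ℕ, (∀ i, d i = q i * q' i) ∧ (∀ i, (q i).Prime ∧ N < q i) ∧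
    (∀ i, (q' i).Prime ∧ N < q' i) ∧ Function.Injective q ∧ Function.Injective q' ∧
    ∀ i j, q i ≠ q' j

/-- the quadratic twist of `y² = x³ + A x + B`, `c = (A, B)`, by `D = ∏ d i`, `i` in `T`: the curve
`y² = x³ + D² A x + D³ B` -/
def tw {m : ℕ} (d : Fin m → ℕ) (T : Finset (Fin m)) (c : ℤ × ℤ) : ℤ × ℤ :=
  ((∏ i ∈ T, (d i : ℤ)) ^ 2 * c.1, (∏ i ∈ T, (d i : ℤ)) ^ 3 * c.2)

/-- The curves `E` all of whose `2 ^ m` quadratic twists `E_D` by the products `D` of the `d i` have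
rank `0` and root number `1`, with `Sel₂(E_D) = ker (H¹(ℚ, E_D[2]) → ∏ H¹(ℚ_v, E_D))` (`Sel2H`) of
order four and no element of order two in `Ш(E_D)`. -/
def TwistParity {m : ℕ} (d : Fin m → ℕ) : Set (ℤ × ℤ) :=
  {c | ∀ T : Finset (Fin m), rank (tw d T c) = 0 ∧
    HasRootNumber (E (tw d T c).1 (tw d T c).2) 1 ∧
    Nat.card (Sel2H (E (tw d T c).1 (tw d T c).2)) = 4 ∧
    ∀ x : Sha (E (tw d T c).1 (tw d T c).2), x + x = 0 → x = 0}

lemma good_of {m N : ℕ} {d : Fin m → ℕ} (hd : Tuple N d) {c : ℤ × ℤ}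
    (hD : 4 * c.1 ^ 3 + 27 * c.2 ^ 2 ≠ 0)
    (hT : ∃ f : ZMod 2 × ZMod 2 →+ (E c.1 c.2).toAffine.Point, Function.Injective f)
    (h : Pool.Agent.Y667.QK.R.TwR (fun j => (d j : ℤ)) c) : c ∈ TwistParity d := by
  intro T
  have hT' := Pool.Agent.W307.RT.tors_iff.2 hT
  have hp : ∏ i ∈ T, (d i : ℤ) ≠ 0 := by
    refine prod_ne_zero_iff.2 fun i _ => ?_
    obtain ⟨q, q', h1, h2, h3, -⟩ := hd
    rw [h1 i]
    exact_mod_cast mul_ne_zero (h2 i).1.ne_zero (h3 i).1.ne_zero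
  have hD2 := Pool.Agent.Y723.QT.disc_q hp hD
  have hT2 := Pool.Agent.Y667.QK.hasT_tw hp hD hT'
  obtain ⟨h1, h2⟩ := h.1 T
  obtain ⟨⟨h3, h4⟩, ⟨h5, h6⟩, -⟩ := Pool.Agent.Y667.SX.sx_of (c := tw d T c) (r := 0) hD2 hT2 h1
    (by rw [zero_add]; exact h2)
  rw [pow_zero] at h6
  have h7 := Nat.eq_one_of_mul_eq_one_right h6
  have h8 := Nat.eq_one_of_mul_eq_one_left h6
  refine ⟨?_, h.2 T, h4, fun x hx => ?_⟩
  · by_contra h0
    have h9 : Module.finrank ℤ (Pool.Agent.W307.RT.Sh (tw d T c).1 (tw d T c).2).toAffine.Point ≠ 0 := h0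
    have h10 := Nat.one_lt_two_pow h9
    omega
  · have h9 := (Nat.card_eq_one_iff_unique.1 h8).1
    have h10 : (⟨x, hx⟩ : {x : Sha (E (tw d T c).1 (tw d T c).2) // x + x = 0}) =
        ⟨0, add_zero 0⟩ := h9.elim _ _
    exact congrArg Subtype.val h10

lemma tup_of {m N : ℕ} {d : Fin m → ℕ} (h : Pool.Agent.Y667.QK.Tup m N d) : Tuple N d := by
  obtain ⟨q, q', h1, h2, h3, h4⟩ := h
  exact ⟨q, q', h1, fun i => h2 i, fun i => h3 i, h4⟩

/-- one of finitely many -/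
lemma pack {ι : Type} (L : Finset ι) (p : ι → ℕ → ℝ) (δ : ℝ)
    (h : ∀ᶠ Z : ℕ in atTop, ∃ d ∈ L, δ ≤ p d Z) : ∃ d ∈ L, ∃ᶠ Z : ℕ in atTop, δ ≤ p d Z := by
  by_contra hcon
  push Not at hcon
  have h1 : ∀ᶠ Z : ℕ in atTop, ∀ d ∈ L, ¬ δ ≤ p d Z := by
    rw [Filter.eventually_all_finset]
    intro d hd
    exact (hcon d hd).mono fun Z hZ => not_le.2 hZ
  obtain ⟨Z, hZ1, hZ2⟩ := (h.and h1).exists
  obtain ⟨d, hd, hle⟩ := hZ1
  exact hZ2 d hd hle

/-- **Theorem.** Order the elliptic curves over `ℚ` with full rational 2-torsion by the conductor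
(times an arbitrary factor as in `Factor`), with no bound on the height. There are finitely many
curves of size at most `Z`, their number tends to infinity with `Z`, and for all `m`, `N` there are a
finite list `L` of tuples of products of two primes larger than `N`, the `2 m` primes distinct, and
`δ > 0`, both independent of the factor, such that for all large `Z` for some `d` in `L` at least a
proportion `δ` of the curves of size at most `Z` belongs to `TwistParity d`; and one `d` in `L` has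
this property for arbitrarily large `Z`. -/
theorem result :
    (∀ f : ℤ × ℤ → ℕ, Factor f →
      (∀ Z : ℕ, (Fam f Z).Finite) ∧ Tendsto (fun Z : ℕ => (Fam f Z).ncard) atTop atTop) ∧
    ∀ m N : ℕ, ∃ L : Finset (Fin m → ℕ), (∀ d ∈ L, Tuple N d) ∧
      ∃ δ : ℝ, 0 < δ ∧ ∀ f : ℤ × ℤ → ℕ, Factor f →
        (∀ᶠ Z : ℕ in atTop, ∃ d ∈ L, δ ≤ proportion f (TwistParity d) Z) ∧
        ∃ d ∈ L, ∃ᶠ Z : ℕ in atTop, δ ≤ proportion f (TwistParity d) Z := by
  classical
  refine ⟨fun f hf => ⟨fun Z => ?_, ?_⟩, fun m N => ?_⟩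
  · rw [Fam_eq]
    exact Pool.Agent.Y679.Cr.Gm_fin good (bdd hf) Z
  · simp only [Fam_eq]
    exact Pool.Agent.Y679.Cr.Gm_tendsto good (bdd hf)
  · obtain ⟨L, hL, δ0, hδ0, H0, h0⟩ := Pool.Agent.Y667.QK.R.mainH m N
    obtain ⟨δ, hδ, h⟩ := Pool.Agent.X293.CO.cond_list L
      (fun d => Pool.Agent.Y667.QK.R.TwR (fun j => (d j : ℤ))) good ⟨δ0, hδ0, H0, h0⟩
    refine ⟨L, fun d hd => tup_of (hL d hd), δ, hδ, fun f hf => ?_⟩
    have key : ∀ᶠ Z : ℕ in atTop, ∃ d ∈ L, δ ≤ proportion f (TwistParity d) Z := by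
      filter_upwards [h f (bdd hf)] with Z hZ
      obtain ⟨d, hd, hle⟩ := hZ
      refine ⟨d, hd, hle.trans ?_⟩
      unfold proportion
      rw [Fam_eq]
      refine div_le_div_of_nonneg_right (Nat.cast_le.2 (Set.ncard_le_ncard ?_
        ((Pool.Agent.Y679.Cr.Gm_fin good (bdd hf) Z).subset Set.inter_subset_left)))
        (Nat.cast_nonneg _)
      rintro k ⟨h1, h2⟩
      exact ⟨h1, good_of (tup_of (hL d hd)) h1.1.1 h1.1.2.2 h2⟩
    exact ⟨key, pack L (fun d Z => proportion f (TwistParity d) Z) δ key⟩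

end Pool.Agent.Results.MP_577099_nt.TwistsByConductor
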